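import Pool.Agent.H79.QN.Stmts3

/-!
# Board `qn`, row DYD: dyadic decomposition of a sum over `[-N, N]`
-/

set_option autoImplicit false

namespace Pool.Agent.H79.QN

open Finset

theorem dyd_nat {β : Type} [AddCommMonoid β] (f : ℕ → β) (J : ℕ) :
    ∑ n ∈ Ico 1 (2 ^ J), f n = ∑ j ∈ range J, ∑ k ∈ range (2 ^ j), f (2 ^ j + k) := by
  induction J with
  | zero => simp
  | succ J ih =>
    rw [sum_range_succ, ← ih]
    have h1 : 1 ≤ 2 ^ J := Nat.one_le_two_pow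
    have h2 : 2 ^ J ≤ 2 ^ (J + 1) := Nat.pow_le_pow_right (by norm_num) (Nat.le_succ J)
    rw [← Finset.sum_Ico_consecutive f h1 h2, Finset.sum_Ico_eq_sum_range f (2 ^ J) (2 ^ (J + 1))]
    have h3 : 2 ^ (J + 1) - 2 ^ J = 2 ^ J := by
      rw [pow_succ]; omega
    rw [h3]

theorem dyd_sym {β : Type} [AddCommMonoid β] (g : ℤ → β) (N : ℕ) :
    ∑ n ∈ Icc (-(N : ℤ)) N, g n = g 0 + ∑ n ∈ Ico 1 (N + 1), (g (n : ℤ) + g (-(n : ℤ))) := by
  induction N with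
  | zero => simp
  | succ N ih =>
    have h1 : Icc (-((N + 1 : ℕ) : ℤ)) ((N + 1 : ℕ) : ℤ) =
        insert ((N + 1 : ℕ) : ℤ) (insert (-((N + 1 : ℕ) : ℤ)) (Icc (-(N : ℤ)) N)) := by
      ext x
      simp only [mem_Icc, mem_insert]
      push_cast
      omega
    have h2 : (-((N + 1 : ℕ) : ℤ)) ∉ Icc (-(N : ℤ)) N := by
      simp only [mem_Icc]
      push_cast
      omega
    have h3 : ((N + 1 : ℕ) : ℤ) ∉ insert (-((N + 1 : ℕ) : ℤ)) (Icc (-(N : ℤ)) N) := by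
      simp only [mem_Icc, mem_insert]
      push_cast
      omega
    rw [h1, sum_insert h3, sum_insert h2, ih, Finset.sum_Ico_succ_top (by omega : 1 ≤ N + 1)]
    abel

theorem dyd_cut {β : Type} [AddCommMonoid β] (g : ℤ → β) (N J : ℕ) (hJ : N < 2 ^ J) :
    ∑ n ∈ Ico 1 (N + 1), (g (n : ℤ) + g (-(n : ℤ))) =
      ∑ n ∈ Ico (1 : ℕ) (2 ^ J), (cutN N g ((n : ℕ) : ℤ) + cutN N g (-((n : ℕ) : ℤ))) := by
  have hsub : Ico 1 (N + 1) ⊆ Ico 1 (2 ^ J) := by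
    intro x hx
    simp only [mem_Ico] at hx ⊢
    omega
  rw [← Finset.sum_subset hsub]
  · refine sum_congr rfl fun n hn => ?_
    simp only [mem_Ico] at hn
    have h1 : |(n : ℤ)| ≤ (N : ℤ) := by
      rw [abs_of_nonneg (by positivity)]
      omega
    have h2 : |-(n : ℤ)| ≤ (N : ℤ) := by
      rw [abs_neg]; exact h1
    unfold cutN
    rw [if_pos h1, if_pos h2]
  · intro n hn hn2
    simp only [mem_Ico] at hn hn2
    have h1 : ¬ |(n : ℤ)| ≤ (N : ℤ) := by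
      rw [abs_of_nonneg (by positivity)]
      omega
    have h2 : ¬ |-(n : ℤ)| ≤ (N : ℤ) := by
      rw [abs_neg]; exact h1
    unfold cutN
    rw [if_neg h1, if_neg h2, add_zero]

/-- row DYD -/
theorem dyd : S_DYD := by
  intro β _ N g
  have hJ : N < 2 ^ (Nat.log 2 N + 1) := Nat.lt_pow_succ_log_self (by norm_num) N
  rw [dyd_sym, dyd_cut g N _ hJ, dyd_nat]
  congr 1
  refine sum_congr rfl fun j _ => ?_
  rw [sum_add_distrib]
  have e1 : ∀ k : ℕ, (((2 ^ j + k : ℕ)) : ℤ) = ((2 ^ j : ℕ) : ℤ) + (k : ℤ) := fun k => Nat.cast_add _ _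
  simp only [e1]

end Pool.Agent.H79.QN
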