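import Pool.Agent.H79.QN.Stmts4

/-!
# Board `qn`, row EXT: a `C^k` function on `[-1, 1]` extends to a `C^k` function on `ℝ`
-/

set_option autoImplicit false

namespace Pool.Agent.H79.QN

/-- row EXT -/
theorem ext : S_EXT := by
  intro k
  induction k with
  | zero =>
    intro f hf
    have hc : ContinuousOn f (Set.Icc (-1) 1) := hf.continuousOn
    have h11 : (-1 : ℝ) ≤ 1 := by norm_num
    refine ⟨Set.IccExtend h11 ((Set.Icc (-1 : ℝ) 1).domRestrict f), ?_, ?_⟩
    · rw [Nat.cast_zero]
      exact contDiff_zero.2 (hc.domRestrict).Icc_extend'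
    · intro x hx
      rw [Set.IccExtend_of_mem h11 _ hx]
      rfl
  | succ k ih =>
    intro f hf
    have hu : UniqueDiffOn ℝ (Set.Icc (-1 : ℝ) 1) := uniqueDiffOn_Icc (by norm_num)
    rw [Nat.cast_succ] at hf
    obtain ⟨hd, -, hc⟩ := (contDiffOn_succ_iff_derivWithin hu).1 hf
    obtain ⟨G, hG, hE⟩ := ih (derivWithin f (Set.Icc (-1) 1)) hc
    have hGc : Continuous G := hG.continuous
    have hder : ∀ x : ℝ, HasDerivAt (fun y => f (-1) + ∫ t in (-1 : ℝ)..y, G t) (G x) x := by
      intro x
      have h1 : HasDerivAt (fun y => ∫ t in (-1 : ℝ)..y, G t) (G x) x :=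
        intervalIntegral.integral_hasDerivAt_right (hGc.intervalIntegrable _ _)
          (hGc.stronglyMeasurableAtFilter _ _) hGc.continuousAt
      exact h1.const_add _
    refine ⟨fun y => f (-1) + ∫ t in (-1 : ℝ)..y, G t, ?_, ?_⟩
    · rw [Nat.cast_succ]
      refine contDiff_succ_iff_deriv.2 ⟨fun x => (hder x).differentiableAt, ?_, ?_⟩
      · intro h
        exact absurd h (by exact_mod_cast WithTop.natCast_ne_top k)
      · have h2 : deriv (fun y => f (-1) + ∫ t in (-1 : ℝ)..y, G t) = G := by
          funext x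
          exact (hder x).deriv
        rw [h2]
        exact hG
    · intro x hx
      have h3 : ∫ y in (-1 : ℝ)..x, G y = f x - f (-1) := by
        refine intervalIntegral.integral_eq_sub_of_hasDerivAt_of_le hx.1 ?_ ?_
          (hGc.intervalIntegrable _ _)
        · exact hf.continuousOn.mono (Set.Icc_subset_Icc_right hx.2)
        · intro y hy
          have hy1 : y ∈ Set.Icc (-1 : ℝ) 1 := ⟨hy.1.le, hy.2.le.trans hx.2⟩
          have hn : Set.Icc (-1 : ℝ) 1 ∈ nhds y := Icc_mem_nhds hy.1 (lt_of_lt_of_le hy.2 hx.2)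
          have h4 := (hd y hy1).hasDerivWithinAt.hasDerivAt hn
          rwa [hE hy1] at h4
      simp only [h3]
      ring

end Pool.Agent.H79.QN
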